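import Pool.Agent.Helper42.KS.Goals

set_option autoImplicit false

namespace Pool.Agent.Helper42.KS.PkMAXQ

theorem geo (ε y : ℝ) (hε : 0 < ε) (hy : 0 ≤ y) (M : ℕ) :
    ∑ r ∈ (Finset.range M).filter (fun r => ε * 2 ^ r < y), ε * (2 : ℝ) ^ r ≤ 2 * y := by
  induction M with
  | zero => simp; linarith
  | succ M ih =>
    by_cases h : ε * 2 ^ M < y
    · have h1 : ∑ r ∈ (Finset.range (M + 1)).filter (fun r => ε * 2 ^ r < y), ε * (2 : ℝ) ^ r ≤
          ∑ r ∈ Finset.range (M + 1), ε * (2 : ℝ) ^ r :=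
        Finset.sum_le_sum_of_subset_of_nonneg (Finset.filter_subset _ _)
          fun _ _ _ => by positivity
      have h2 : ∀ n : ℕ, ∑ r ∈ Finset.range n, ε * (2 : ℝ) ^ r = ε * (2 ^ n - 1) := by
        intro n
        induction n with
        | zero => simp
        | succ n ih => rw [Finset.sum_range_succ, ih, pow_succ]; ring
      rw [h2, pow_succ] at h1
      nlinarith
    · rw [Finset.range_add_one, Finset.filter_insert, if_neg h]
      exact ih

theorem lay (ε b : ℝ) (hε : 0 < ε) (hb : ε < b) (M : ℕ) (hM : b ≤ ε * 2 ^ M) :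
    b ^ 2 ≤ 4 * ∑ r ∈ (Finset.range M).filter (fun r => ε * 2 ^ r < b), (ε * (2 : ℝ) ^ r) ^ 2 := by
  induction M with
  | zero => simp at hM; linarith
  | succ M ih =>
    by_cases h : ε * 2 ^ M < b
    · have h1 : (ε * (2 : ℝ) ^ M) ^ 2 ≤
          ∑ r ∈ (Finset.range (M + 1)).filter (fun r => ε * 2 ^ r < b), (ε * (2 : ℝ) ^ r) ^ 2 :=
        Finset.single_le_sum (f := fun r : ℕ => (ε * (2 : ℝ) ^ r) ^ 2) (fun _ _ => by positivity)
          (by simp [h])
      have h2 : b ^ 2 ≤ (ε * 2 ^ (M + 1)) ^ 2 := by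
        apply pow_le_pow_left₀ (by linarith) hM
      have h3 : (ε * (2 : ℝ) ^ (M + 1)) ^ 2 = 4 * (ε * (2 : ℝ) ^ M) ^ 2 := by
        rw [pow_succ]
        ring
      rw [h3] at h2
      linarith
    · rw [Finset.range_add_one, Finset.filter_insert, if_neg h]
      exact ih (not_lt.mp h)

theorem one (hW : G_W11) (d : ℕ) : ∃ C : ℝ, 0 ≤ C ∧ ∀ (G X : Finset (Fin d → ℤ))
    (g : (Fin d → ℤ) → ℝ) (L : (Fin d → ℤ) → ℕ), (∀ z, 0 ≤ g z) → (∀ z, z ∉ G → g z = 0) →
    (∀ x, 1 ≤ L x) →
    ∑ x ∈ X, (((L x : ℝ) ^ d)⁻¹ * ∑ t ∈ box d (L x), g (x - t)) ^ 2 ≤ C * ∑ z ∈ G, g z ^ 2 := by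
  obtain ⟨C₀, hC₀⟩ := hW d
  set C := max C₀ 0 with hC
  have hC0 : 0 ≤ C := le_max_right _ _
  refine ⟨4 ^ d * (32 * C), by positivity, ?_⟩
  intro G X g L hg hgG hL
  -- the normalised averages
  set b : (Fin d → ℤ) → ℝ := fun x =>
    (2 ^ d)⁻¹ * (((L x : ℝ) ^ d)⁻¹ * ∑ t ∈ box d (L x), g (x - t)) with hb
  have hb0 : ∀ x, 0 ≤ b x := fun x =>
    mul_nonneg (by positivity) (mul_nonneg (by positivity) (Finset.sum_nonneg fun t _ => hg _))
  have hab : ∀ x, (((L x : ℝ) ^ d)⁻¹ * ∑ t ∈ box d (L x), g (x - t)) ^ 2 = 4 ^ d * b x ^ 2 := by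
    intro x
    have h4 : (4 : ℝ) ^ d = (2 ^ d) ^ 2 := by
      rw [← pow_mul, mul_comm, pow_mul]
      norm_num
    simp only [hb]
    rw [h4]
    field_simp
  simp only [hab]
  rw [← Finset.mul_sum, mul_assoc (4 ^ d : ℝ)]
  refine mul_le_mul_of_nonneg_left ?_ (by positivity)
  -- weak type estimate
  have weak : ∀ s : ℝ, 0 < s → ((X.filter fun x => s < b x).card : ℝ) * s ≤
      2 * C * ∑ z ∈ G.filter (fun z => s < 2 * g z), g z := by
    intro s hs
    have h := hC₀ (s / 2) G (X.filter fun x => s < b x) (fun z => if s < 2 * g z then g z else 0)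
      (by positivity) (fun z => by split_ifs; exacts [hg z, le_rfl])
      (fun z hz => by rw [hgG z hz]; simp)
      (by
        intro x hx
        obtain ⟨-, hx⟩ := Finset.mem_filter.mp hx
        refine ⟨Nat.clog 2 (L x), ?_⟩
        set j := Nat.clog 2 (L x) with hj
        have hj1 : L x ≤ 2 ^ j := Nat.le_pow_clog (by norm_num) _
        have hj2 : 2 ^ j ≤ 2 * L x := by
          by_cases h1 : 1 < L x
          · have h2 := Nat.pow_pred_clog_lt_self (b := 2) (by norm_num) h1
            have h3 : 0 < j := Nat.clog_pos (by norm_num) h1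
            rw [← hj] at h2
            obtain ⟨i, hi⟩ : ∃ i, j = i + 1 := ⟨j - 1, by omega⟩
            rw [hi] at h2 ⊢
            rw [Nat.pred_succ] at h2
            rw [pow_succ]
            omega
          · have h2 : L x = 1 := le_antisymm (not_lt.mp h1) (hL x)
            rw [hj, h2]
            simp
        have hLpos : (0 : ℝ) < L x := by exact_mod_cast hL x
        -- cardinality of the box
        have hcard : ((box d (2 ^ j)).card : ℝ) = 2 ^ (j * d) := by
          unfold box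
          rw [Fintype.card_piFinset]
          simp only [Int.card_Ico, sub_zero, Int.toNat_natCast, Finset.prod_const,
            Finset.card_univ, Fintype.card_fin, pow_mul]
          push_cast
          ring
        have hsub : box d (L x) ⊆ box d (2 ^ j) := by
          intro t ht
          unfold box at ht ⊢
          rw [Fintype.mem_piFinset] at ht ⊢
          intro i
          have := ht i
          rw [Finset.mem_Ico] at this ⊢
          refine ⟨this.1, lt_of_lt_of_le this.2 ?_⟩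
          exact_mod_cast hj1
        have e1 : ∑ t ∈ box d (L x), g (x - t) ≤ ∑ t ∈ box d (2 ^ j), g (x - t) :=
          Finset.sum_le_sum_of_subset_of_nonneg hsub fun _ _ _ => hg _
        have e2 : ∑ t ∈ box d (2 ^ j), g (x - t) ≤
            ∑ t ∈ box d (2 ^ j), ((if s < 2 * g (x - t) then g (x - t) else 0) + s / 2) := by
          refine Finset.sum_le_sum fun t _ => ?_
          split_ifs with h
          · linarith
          · linarith [not_lt.mp h]
        rw [Finset.sum_add_distrib, Finset.sum_const, nsmul_eq_mul, hcard] at e2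
        have e3 : s * (2 ^ d * (L x : ℝ) ^ d) < ∑ t ∈ box d (L x), g (x - t) := by
          have h1 : (2 : ℝ) ^ d * (L x : ℝ) ^ d * b x = ∑ t ∈ box d (L x), g (x - t) := by
            simp only [hb]
            field_simp
          rw [← h1, mul_comm s]
          exact mul_lt_mul_of_pos_left hx (by positivity)
        have e4 : (2 : ℝ) ^ (j * d) ≤ 2 ^ d * (L x : ℝ) ^ d := by
          rw [pow_mul, ← mul_pow]
          refine pow_le_pow_left₀ (by positivity) ?_ _
          exact_mod_cast hj2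
        have e5 : s * 2 ^ (j * d) ≤ s * (2 ^ d * (L x : ℝ) ^ d) :=
          mul_le_mul_of_nonneg_left e4 hs.le
        show s / 2 * (2 : ℝ) ^ (j * d) < ∑ t ∈ box d (2 ^ j),
          (if s < 2 * g (x - t) then g (x - t) else 0)
        linarith)
    rw [← Finset.sum_filter] at h
    have h2 : C₀ * ∑ z ∈ G.filter (fun z => s < 2 * g z), g z ≤
        C * ∑ z ∈ G.filter (fun z => s < 2 * g z), g z :=
      mul_le_mul_of_nonneg_right (le_max_left _ _) (Finset.sum_nonneg fun z _ => hg z)
    linarith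
  -- a common scale
  obtain ⟨ε, hε, hεb⟩ : ∃ ε : ℝ, 0 < ε ∧ ∀ x ∈ X, 0 < b x → ε < b x := by
    by_cases hne : (X.filter fun x => 0 < b x).Nonempty
    · obtain ⟨x₀, hx₀, hmin⟩ := Finset.exists_min_image _ b hne
      have h0 := (Finset.mem_filter.mp hx₀).2
      refine ⟨b x₀ / 2, by linarith, fun x hx hbx => ?_⟩
      have := hmin x (Finset.mem_filter.mpr ⟨hx, hbx⟩)
      linarith
    · refine ⟨1, one_pos, fun x hx hbx => ?_⟩
      exact absurd ⟨x, Finset.mem_filter.mpr ⟨hx, hbx⟩⟩ hne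
  obtain ⟨M, hM⟩ : ∃ M : ℕ, ∀ x ∈ X, b x ≤ ε * 2 ^ M := by
    obtain ⟨M, hM⟩ := pow_unbounded_of_one_lt ((∑ x ∈ X, b x) / ε) (one_lt_two : (1 : ℝ) < 2)
    refine ⟨M, fun x hx => ?_⟩
    have h1 : b x ≤ ∑ x ∈ X, b x := Finset.single_le_sum (fun y _ => hb0 y) hx
    rw [div_lt_iff₀ hε] at hM
    linarith
  have step1 : ∀ x ∈ X, b x ^ 2 ≤
      4 * ∑ r ∈ Finset.range M, if ε * 2 ^ r < b x then (ε * (2 : ℝ) ^ r) ^ 2 else 0 := by
    intro x hx
    rw [← Finset.sum_filter]
    rcases (hb0 x).lt_or_eq with h | h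
    · exact lay ε (b x) hε (hεb x hx h) M (hM x hx)
    · rw [← h]
      have : (0 : ℝ) ≤ ∑ r ∈ (Finset.range M).filter (fun r => ε * 2 ^ r < 0),
        (ε * (2 : ℝ) ^ r) ^ 2 := Finset.sum_nonneg fun _ _ => by positivity
      simpa using this
  calc ∑ x ∈ X, b x ^ 2
      ≤ ∑ x ∈ X, 4 * ∑ r ∈ Finset.range M,
          (if ε * 2 ^ r < b x then (ε * (2 : ℝ) ^ r) ^ 2 else 0) := Finset.sum_le_sum step1
    _ = 4 * ∑ r ∈ Finset.range M, (ε * (2 : ℝ) ^ r) *
          (((X.filter fun x => ε * 2 ^ r < b x).card : ℝ) * (ε * (2 : ℝ) ^ r)) := by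
        rw [← Finset.mul_sum, Finset.sum_comm]
        congr 1
        refine Finset.sum_congr rfl fun r _ => ?_
        rw [← Finset.sum_filter, Finset.sum_const, nsmul_eq_mul]
        ring
    _ ≤ 4 * ∑ r ∈ Finset.range M, (ε * (2 : ℝ) ^ r) *
          (2 * C * ∑ z ∈ G.filter (fun z => ε * 2 ^ r < 2 * g z), g z) := by
        refine mul_le_mul_of_nonneg_left ?_ (by norm_num)
        refine Finset.sum_le_sum fun r _ => ?_
        exact mul_le_mul_of_nonneg_left (weak _ (by positivity)) (by positivity)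
    _ = 8 * C * ∑ z ∈ G, g z *
          ∑ r ∈ (Finset.range M).filter (fun r => ε * 2 ^ r < 2 * g z), ε * (2 : ℝ) ^ r := by
        have h1 : ∀ r : ℕ, (ε * (2 : ℝ) ^ r) *
          (2 * C * ∑ z ∈ G.filter (fun z => ε * 2 ^ r < 2 * g z), g z) =
            2 * C * ∑ z ∈ G, if ε * 2 ^ r < 2 * g z then (ε * (2 : ℝ) ^ r) * g z else 0 := by
          intro r
          rw [← Finset.sum_filter, ← Finset.mul_sum]
          ring
        simp only [h1]
        rw [← Finset.mul_sum, Finset.sum_comm]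
        have h2 : ∀ z ∈ G, g z *
            ∑ r ∈ (Finset.range M).filter (fun r => ε * 2 ^ r < 2 * g z), ε * (2 : ℝ) ^ r =
            ∑ r ∈ Finset.range M, if ε * 2 ^ r < 2 * g z then (ε * (2 : ℝ) ^ r) * g z else 0 := by
          intro z _
          rw [← Finset.sum_filter, Finset.mul_sum]
          exact Finset.sum_congr rfl fun r _ => mul_comm _ _
        rw [Finset.sum_congr rfl h2]
        ring
    _ ≤ 8 * C * ∑ z ∈ G, g z * (2 * (2 * g z)) := by
        refine mul_le_mul_of_nonneg_left ?_ (by positivity)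
        refine Finset.sum_le_sum fun z _ => ?_
        exact mul_le_mul_of_nonneg_left (geo ε (2 * g z) hε (by linarith [hg z]) M) (hg z)
    _ = 32 * C * ∑ z ∈ G, g z ^ 2 := by
        rw [Finset.mul_sum, Finset.mul_sum]
        refine Finset.sum_congr rfl fun z _ => by ring

theorem thm : G_W11 → G_MAXQ := by
  intro hW d
  obtain ⟨C, hC0, hC⟩ := one hW d
  refine ⟨C, ?_⟩
  intro q G X g L hq hg hgG hL
  have hq0 : (q : ℤ) ≠ 0 := by
    have : 0 < q := hq
    positivity
  have hqpos : (0 : ℤ) < q := by exact_mod_cast hq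
  let res : (Fin d → ℤ) → (Fin d → ℤ) := fun x i => x i % q
  let quo : (Fin d → ℤ) → (Fin d → ℤ) := fun x i => x i / q
  have hrq : ∀ x, res x + (q : ℤ) • quo x = x := by
    intro x
    ext i
    simp only [res, quo, Pi.add_apply, Pi.smul_apply, smul_eq_mul]
    exact Int.emod_add_mul_ediv (x i) q
  have hres : ∀ x, res x ∈ box d q := by
    intro x
    unfold box
    rw [Fintype.mem_piFinset]
    intro i
    rw [Finset.mem_Ico]
    exact ⟨Int.emod_nonneg _ hq0, Int.emod_lt_of_pos _ hqpos⟩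
  have hrc : ∀ c ∈ box d q, ∀ y, res (c + (q : ℤ) • y) = c ∧ quo (c + (q : ℤ) • y) = y := by
    intro c hc y
    unfold box at hc
    rw [Fintype.mem_piFinset] at hc
    constructor
    · ext i
      have h := hc i
      rw [Finset.mem_Ico] at h
      simp only [res, Pi.add_apply, Pi.smul_apply, smul_eq_mul]
      rw [Int.add_mul_emod_self_left]
      exact Int.emod_eq_of_lt h.1 h.2
    · ext i
      have h := hc i
      rw [Finset.mem_Ico] at h
      simp only [quo, Pi.add_apply, Pi.smul_apply, smul_eq_mul]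
      rw [Int.add_mul_ediv_left _ _ hq0, Int.ediv_eq_zero_of_lt h.1 h.2, zero_add]
  have hinj : ∀ c, ∀ Y : Finset (Fin d → ℤ), Set.InjOn quo (Y.filter fun x => res x = c) := by
    intro c Y x hx y hy hxy
    have h1 := (Finset.mem_filter.mp (Finset.mem_coe.mp hx)).2
    have h2 := (Finset.mem_filter.mp (Finset.mem_coe.mp hy)).2
    rw [← hrq x, ← hrq y, h1, h2, hxy]
  have key : ∀ c ∈ box d q,
      ∑ x ∈ X.filter (fun x => res x = c),
        (((L x : ℝ) ^ d)⁻¹ * ∑ t ∈ box d (L x), g (x - (q : ℤ) • t)) ^ 2 ≤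
      C * ∑ z ∈ G.filter (fun z => res z = c), g z ^ 2 := by
    intro c hc
    have h := hC ((G.filter fun z => res z = c).image quo) ((X.filter fun x => res x = c).image quo)
      (fun y => g (c + (q : ℤ) • y)) (fun y => L (c + (q : ℤ) • y)) (fun y => hg _)
      (by
        intro y hy
        apply hgG
        intro hmem
        apply hy
        rw [Finset.mem_image]
        exact ⟨_, Finset.mem_filter.mpr ⟨hmem, (hrc c hc y).1⟩, (hrc c hc y).2⟩)
      (fun y => hL _)
    rw [Finset.sum_image (hinj c X), Finset.sum_image (hinj c G)] at h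
    have e1 : ∀ x ∈ X.filter (fun x => res x = c),
        (((L (c + (q : ℤ) • quo x) : ℝ) ^ d)⁻¹ *
          ∑ t ∈ box d (L (c + (q : ℤ) • quo x)), g (c + (q : ℤ) • (quo x - t))) ^ 2 =
        (((L x : ℝ) ^ d)⁻¹ * ∑ t ∈ box d (L x), g (x - (q : ℤ) • t)) ^ 2 := by
      intro x hx
      have hx2 := (Finset.mem_filter.mp hx).2
      have hx3 : c + (q : ℤ) • quo x = x := by rw [← hx2]; exact hrq x
      rw [hx3]
      congr 2
      refine Finset.sum_congr rfl fun t _ => ?_
      rw [smul_sub, ← add_sub_assoc, hx3]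
    have e2 : ∀ z ∈ G.filter (fun z => res z = c), g (c + (q : ℤ) • quo z) ^ 2 = g z ^ 2 := by
      intro z hz
      have hz2 := (Finset.mem_filter.mp hz).2
      have hz3 : c + (q : ℤ) • quo z = z := by rw [← hz2]; exact hrq z
      rw [hz3]
    rw [Finset.sum_congr rfl e1, Finset.sum_congr rfl e2] at h
    exact h
  rw [← Finset.sum_fiberwise_of_maps_to (s := X) (t := box d q) (g := res) (fun x _ => hres x),
    ← Finset.sum_fiberwise_of_maps_to (s := G) (t := box d q) (g := res) (fun x _ => hres x),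
    Finset.mul_sum]
  exact Finset.sum_le_sum key

end Pool.Agent.Helper42.KS.PkMAXQ
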