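import Pool.Agent.Helper89.KS.Goals
import Pool.Agent.Helper89.GP.Basic

/-!
# The Kahn-Saks conjecture, packet MOM: moments of the exponential model
-/

namespace Pool.Agent.Helper40.KS

open Finset MeasureTheory Filter Topology Pool.Agent.Helper89.GP Pool.Agent.Helper89.KS
open scoped ENNReal

/-- Jensen's inequality for the square root. -/
theorem Ex_sqrt {n : ℕ} {R : Fin n → Fin n → Prop} (hR : (LX R).Nonempty)
    (X : Equiv.Perm (Fin n) → ℝ) (hX : ∀ σ, 0 ≤ X σ) :
    (Ex R fun σ => √(X σ)) ≤ √(Ex R X) := by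
  have hc := card_pos_real hR
  apply Real.le_sqrt_of_sq_le
  unfold Ex
  have h1 := sq_sum_le_card_mul_sum_sq (s := LX R) (f := fun σ => √(X σ))
  have h2 : ∑ σ ∈ LX R, √(X σ) ^ 2 = ∑ σ ∈ LX R, X σ :=
    Finset.sum_congr rfl fun σ _ => Real.sq_sqrt (hX σ)
  rw [h2] at h1
  rw [div_pow, div_le_div_iff₀ (by positivity) hc]
  calc (∑ σ ∈ LX R, √(X σ)) ^ 2 * ((LX R).card : ℝ)
      ≤ ((LX R).card * ∑ σ ∈ LX R, X σ) * (LX R).card :=
        mul_le_mul_of_nonneg_right h1 hc.le
    _ = (∑ σ ∈ LX R, X σ) * ((LX R).card : ℝ) ^ 2 := by ring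

theorem mom (hPSF : PsfStmt) (hMUF : MufStmt) : MomStmt := by
  intro n R p q hR
  obtain ⟨hpr, hF, hA, -⟩ := hMUF n R hR
  have hEn : IsProbabilityMeasure (En n) := by
    have h1 := hA Set.univ MeasurableSet.univ
    rw [probReal_univ] at h1
    have h2 : (Ex R fun σ => (En n).real {e | cf σ e ∈ (Set.univ : Set (Fin n → ℝ))}) =
        (En n).real Set.univ := by
      simp only [Set.mem_univ, Set.ofPred_true]
      exact Ex_const hR _
    rw [h2] at h1
    exact ⟨(ENNReal.toReal_eq_one_iff _).1 h1.symm⟩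
  refine ⟨?_, ?_, ?_⟩
  · have h1 := hF (fun v => v p) (measurable_pi_apply p) (fun σ _ => (hPSF n (σ p) (σ p)).1.1)
    refine ⟨h1.1, ?_⟩
    rw [h1.2]
    have h2 : ∀ σ ∈ LX R, ∫ e, (fun v : Fin n → ℝ => v p) (cf σ e) ∂En n = (po σ p : ℝ) + 1 :=
      fun σ _ => (hPSF n (σ p) (σ p)).1.2
    rw [Ex_congr h2, Ex_add, Ex_const hR]
    rfl
  · have hint : ∀ σ : Equiv.Perm (Fin n), Integrable (fun e : Fin n → ℝ =>
        ps e (σ p) - ps e (σ q) - ((po σ p : ℝ) - po σ q)) (En n) := by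
      intro σ
      exact ((hPSF n (σ p) (σ p)).1.1.sub (hPSF n (σ q) (σ q)).1.1).sub (integrable_const _)
    have hm : Measurable fun v : Fin n → ℝ => |v p - v q - (hh R p - hh R q)| :=
      (((measurable_pi_apply p).sub (measurable_pi_apply q)).sub_const _).abs
    have h1 := hF (fun v => |v p - v q - (hh R p - hh R q)|) hm (fun σ _ =>
      (((hPSF n (σ p) (σ p)).1.1.sub (hPSF n (σ q) (σ q)).1.1).sub (integrable_const _)).abs)
    rw [h1.2]
    have h2 : ∀ σ ∈ LX R, ∫ e, (fun v : Fin n → ℝ => |v p - v q - (hh R p - hh R q)|) (cf σ e)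
        ∂En n ≤ √|(po σ p : ℝ) - po σ q| + |(po σ p : ℝ) - hh R p| + |(po σ q : ℝ) - hh R q| := by
      intro σ _
      have h3 := (hPSF n (σ q) (σ p)).2.2.1
      have h4 : ∫ e, (fun v : Fin n → ℝ => |v p - v q - (hh R p - hh R q)|) (cf σ e) ∂En n ≤
          ∫ e, (|ps e (σ p) - ps e (σ q) - ((po σ p : ℝ) - po σ q)| +
            (|(po σ p : ℝ) - hh R p| + |(po σ q : ℝ) - hh R q|)) ∂En n := by
        refine integral_mono (((hPSF n (σ p) (σ p)).1.1.sub (hPSF n (σ q) (σ q)).1.1).sub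
          (integrable_const _)).abs ((hint σ).abs.add (integrable_const _)) ?_
        intro e
        show |ps e (σ p) - ps e (σ q) - (hh R p - hh R q)| ≤ _
        have h5 : ps e (σ p) - ps e (σ q) - (hh R p - hh R q) =
            (ps e (σ p) - ps e (σ q) - ((po σ p : ℝ) - po σ q)) +
              (((po σ p : ℝ) - hh R p) + -((po σ q : ℝ) - hh R q)) := by ring
        rw [h5]
        refine (abs_add_le _ _).trans (add_le_add le_rfl ((abs_add_le _ _).trans ?_))
        rw [abs_neg]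
      rw [integral_add (hint σ).abs (integrable_const _), integral_const, probReal_univ, one_smul]
        at h4
      have h6 : ∫ e, |ps e (σ p) - ps e (σ q) - ((po σ p : ℝ) - po σ q)| ∂En n ≤
          √|(po σ p : ℝ) - po σ q| := h3
      linarith
    refine (Ex_mono h2).trans ?_
    rw [Ex_add, Ex_add]
    have h7 := Ex_sqrt hR (fun σ => |(po σ p : ℝ) - po σ q|) (fun _ => abs_nonneg _)
    unfold dv
    linarith
  · have h1 : ∀ σ ∈ LX R, |(po σ p : ℝ) - po σ q| ≤
        |hh R p - hh R q| + |(po σ p : ℝ) - hh R p| + |(po σ q : ℝ) - hh R q| := by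
      intro σ _
      have h5 : (po σ p : ℝ) - po σ q =
          (hh R p - hh R q) + ((po σ p : ℝ) - hh R p) + -((po σ q : ℝ) - hh R q) := by ring
      rw [h5]
      refine (abs_add_le _ _).trans ?_
      rw [abs_neg]
      exact add_le_add (abs_add_le _ _) le_rfl
    refine (Ex_mono h1).trans ?_
    rw [Ex_add, Ex_add, Ex_const hR]
    exact le_rfl

end Pool.Agent.Helper40.KS
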