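import Pool.Agent.Helper42.KS.Goals

set_option autoImplicit false

namespace Pool.Agent.Helper42.KS.PkMULT

theorem prod_diff {ι : Type*} [DecidableEq ι] (s : Finset ι) (u v : ι → ℂ) (K δ : ℝ) (hK : 0 ≤ K)
    (hδ : 0 ≤ δ) (hu : ∀ i ∈ s, ‖u i‖ ≤ K) (hv : ∀ i ∈ s, ‖v i‖ ≤ K)
    (hd : ∀ i ∈ s, ‖u i - v i‖ ≤ K * δ) :
    ‖∏ i ∈ s, u i - ∏ i ∈ s, v i‖ ≤ s.card * K ^ s.card * δ := by
  induction s using Finset.induction_on with
  | empty => simp
  | insert i s hi ih =>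
    rw [Finset.prod_insert hi, Finset.prod_insert hi, Finset.card_insert_of_notMem hi]
    have h1 := ih (fun j hj => hu j (Finset.mem_insert_of_mem hj))
      (fun j hj => hv j (Finset.mem_insert_of_mem hj))
      (fun j hj => hd j (Finset.mem_insert_of_mem hj))
    have h2 : ‖∏ j ∈ s, v j‖ ≤ K ^ s.card := by
      rw [norm_prod]
      exact (Finset.prod_le_prod (fun _ _ => norm_nonneg _)
        (fun j hj => hv j (Finset.mem_insert_of_mem hj))).trans_eq (Finset.prod_const K)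
    have e : u i * ∏ j ∈ s, u j - v i * ∏ j ∈ s, v j =
        u i * (∏ j ∈ s, u j - ∏ j ∈ s, v j) + (u i - v i) * ∏ j ∈ s, v j := by ring
    rw [e]
    refine (norm_add_le _ _).trans ?_
    rw [norm_mul, norm_mul]
    have h3 : ‖u i‖ * ‖∏ j ∈ s, u j - ∏ j ∈ s, v j‖ ≤ K * (s.card * K ^ s.card * δ) :=
      mul_le_mul (hu i (Finset.mem_insert_self i s)) h1 (norm_nonneg _) hK
    have h4 : ‖u i - v i‖ * ‖∏ j ∈ s, v j‖ ≤ (K * δ) * K ^ s.card :=
      mul_le_mul (hd i (Finset.mem_insert_self i s)) h2 (norm_nonneg _) (mul_nonneg hK hδ)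
    calc _ ≤ K * (s.card * K ^ s.card * δ) + (K * δ) * K ^ s.card := add_le_add h3 h4
      _ = _ := by push_cast; ring

theorem prod_small {d : ℕ} (u : Fin d → ℂ) (K δ : ℝ) (hK : 0 ≤ K) (ν : Fin d)
    (hu : ∀ i, ‖u i‖ ≤ K) (hν : ‖u ν‖ ≤ K * δ) : ‖∏ i, u i‖ ≤ K ^ d * δ := by
  have hd : 1 ≤ d := by have := ν.2; omega
  rw [← Finset.mul_prod_erase Finset.univ u (Finset.mem_univ ν), norm_mul, norm_prod]
  have h1 : ∏ i ∈ Finset.univ.erase ν, ‖u i‖ ≤ K ^ (Finset.univ.erase ν).card :=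
    (Finset.prod_le_prod (fun _ _ => norm_nonneg _) (fun j _ => hu j)).trans_eq
      (Finset.prod_const K)
  rw [Finset.card_erase_of_mem (Finset.mem_univ ν), Finset.card_univ, Fintype.card_fin] at h1
  have h0 : 0 ≤ ∏ i ∈ Finset.univ.erase ν, ‖u i‖ := Finset.prod_nonneg fun _ _ => norm_nonneg _
  have hKδ : 0 ≤ K * δ := (norm_nonneg _).trans hν
  calc ‖u ν‖ * ∏ i ∈ Finset.univ.erase ν, ‖u i‖ ≤ (K * δ) * K ^ (d - 1) :=
        mul_le_mul hν h1 h0 hKδ
    _ = K ^ d * δ := by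
        obtain ⟨e, rfl⟩ : ∃ e, d = e + 1 := ⟨d - 1, by omega⟩
        rw [Nat.add_sub_cancel, pow_succ]
        ring

theorem thm : G_ONE → G_MULT := by
  intro hO k d ε hk hd hε
  obtain ⟨C₀, c, hc, h⟩ := hO k ε hk hε
  set C := max C₀ 0 with hC
  have hC0 : 0 ≤ C := le_max_right _ _
  refine ⟨2 * d * C ^ d, c, hc, ?_⟩
  intro R q a B b θ ν₀ hR hq ha hqR hBR hθ hθm
  have hA : 0 < AA k q ε B := by
    unfold AA
    have : (0 : ℝ) < q := by exact_mod_cast hq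
    positivity
  set A := AA k q ε B with hAd
  have hRpos : (0 : ℝ) < R := by exact_mod_cast hR
  set T := (R : ℝ) * |θ ν₀| with hT
  have hT0 : 0 ≤ T := by positivity
  have hRc : 0 ≤ (R : ℝ) ^ (-c) := by positivity
  have hTc : 0 ≤ T ^ c := by positivity
  have hTc' : 0 ≤ T ^ (-c) := by positivity
  have hK : 0 ≤ C * A := mul_nonneg hC0 hA.le
  have hCA : C₀ * A ≤ C * A := mul_le_mul_of_nonneg_right (le_max_left _ _) hA.le
  have hd1 : (1 : ℝ) ≤ d := by exact_mod_cast hd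
  have hu : ∀ ν, ‖uu k R q a B (b ν / q + θ ν)‖ ≤ C * A := fun ν =>
    (h R q a (b ν) B (θ ν) hR hq ha hqR hBR (hθ ν)).1.trans hCA
  have hv : ∀ ν, ‖vv k R q a B (b ν / q + θ ν)‖ ≤ C * A := fun ν =>
    (h R q a (b ν) B (θ ν) hR hq ha hqR hBR (hθ ν)).2.1.trans hCA
  have hCd : 0 ≤ C ^ d * A ^ d := by positivity
  by_cases hT1 : T ≤ 1
  · have hmin : T ^ c ≤ min (T ^ c) (T ^ (-c)) := by
      rcases hT0.lt_or_eq with h0 | h0
      · refine le_min le_rfl ?_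
        exact (Real.rpow_le_one hT0 hT1 hc.le).trans
          (Real.one_le_rpow_of_pos_of_le_one_of_nonpos h0 hT1 (by linarith))
      · rw [← h0, Real.zero_rpow hc.ne', Real.zero_rpow (by linarith : -c ≠ 0)]
        simp
    have h1 := prod_diff Finset.univ (fun ν => uu k R q a B (b ν / q + θ ν))
      (fun ν => vv k R q a B (b ν / q + θ ν)) (C * A) (T ^ c + (R : ℝ) ^ (-c)) hK
      (by positivity) (fun ν _ => hu ν) (fun ν _ => hv ν) (by
        intro ν _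
        refine ((h R q a (b ν) B (θ ν) hR hq ha hqR hBR (hθ ν)).2.2.1).trans ?_
        have h2 : ((R : ℝ) * |θ ν|) ^ c ≤ T ^ c :=
          Real.rpow_le_rpow (by positivity) (mul_le_mul_of_nonneg_left (hθm ν) hRpos.le) hc.le
        exact mul_le_mul hCA (by linarith) (by positivity) hK)
    rw [Finset.card_univ, Fintype.card_fin] at h1
    refine h1.trans ?_
    rw [mul_pow]
    calc (d : ℝ) * (C ^ d * A ^ d) * (T ^ c + (R : ℝ) ^ (-c))
        ≤ (d : ℝ) * (C ^ d * A ^ d) * (min (T ^ c) (T ^ (-c)) + (R : ℝ) ^ (-c)) :=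
          mul_le_mul_of_nonneg_left (by linarith) (by positivity)
      _ ≤ 2 * d * C ^ d * A ^ d * (min (T ^ c) (T ^ (-c)) + (R : ℝ) ^ (-c)) := by
          have : 0 ≤ (d : ℝ) * (C ^ d * A ^ d) * (min (T ^ c) (T ^ (-c)) + (R : ℝ) ^ (-c)) := by
            have := le_min hTc hTc'
            positivity
          linarith
  · push Not at hT1
    have hmin : T ^ (-c) ≤ min (T ^ c) (T ^ (-c)) := by
      refine le_min ?_ le_rfl
      exact (Real.rpow_le_one_of_one_le_of_nonpos hT1.le (by linarith)).trans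
        (Real.one_le_rpow hT1.le hc.le)
    have hs := (h R q a (b ν₀) B (θ ν₀) hR hq ha hqR hBR (hθ ν₀)).2.2.2 hT1.le
    have hδ : 0 ≤ T ^ (-c) + (R : ℝ) ^ (-c) := by positivity
    have e1 := prod_small (fun ν => uu k R q a B (b ν / q + θ ν)) (C * A)
      (T ^ (-c) + (R : ℝ) ^ (-c)) hK ν₀ hu
      (hs.1.trans (mul_le_mul_of_nonneg_right hCA hδ))
    have e2 := prod_small (fun ν => vv k R q a B (b ν / q + θ ν)) (C * A)
      (T ^ (-c) + (R : ℝ) ^ (-c)) hK ν₀ hv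
      (hs.2.trans (mul_le_mul_of_nonneg_right hCA hδ))
    refine (norm_sub_le _ _).trans ?_
    rw [mul_pow] at e1 e2
    calc _ ≤ C ^ d * A ^ d * (T ^ (-c) + (R : ℝ) ^ (-c)) +
          C ^ d * A ^ d * (T ^ (-c) + (R : ℝ) ^ (-c)) := add_le_add e1 e2
      _ = 2 * 1 * C ^ d * A ^ d * (T ^ (-c) + (R : ℝ) ^ (-c)) := by ring
      _ ≤ 2 * d * C ^ d * A ^ d * (T ^ (-c) + (R : ℝ) ^ (-c)) := by
          gcongr
      _ ≤ 2 * d * C ^ d * A ^ d * (min (T ^ c) (T ^ (-c)) + (R : ℝ) ^ (-c)) := by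
          refine mul_le_mul_of_nonneg_left (by linarith) (by positivity)

end Pool.Agent.Helper42.KS.PkMULT
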