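import Pool.Agent.Helper44.KS.GoalsE

/-!
# The Kahn-Saks conjecture, packet NRM: many elements near `x` move relatively to `x`
-/

namespace Pool.Agent.Helper40.KS

open MeasureTheory Filter Topology Set Pool.Agent.Helper44.KS
open scoped ENNReal ContDiff

variable {c : ℝ} (Z : KSys c)

theorem a_x : Z.a Z.x = 0 := by
  unfold KSys.a
  rw [integral_congr_ae (g := fun _ => (0 : ℝ)) Z.ref, integral_zero]

theorem dist_x (q : Fin Z.n) : Z.dist q Z.x = ∫ d, |Z.Y d q| ∂Z.μ := by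
  unfold KSys.dist
  refine integral_congr_ae ?_
  filter_upwards [Z.ref] with d hd
  have h1 : Z.Y d Z.x = 0 := by
    unfold KSys.Y
    rw [a_x, hd, sub_zero]
  rw [h1, sub_zero]

theorem int_Y (q : Fin Z.n) : Integrable (fun d => Z.Y d q) Z.μ := by
  unfold KSys.Y
  exact (Z.int q).sub (integrable_const _)

theorem dist_nonneg (p q : Fin Z.n) : 0 ≤ Z.dist p q := integral_nonneg fun _ => abs_nonneg _

/-- the probability that `q` and `x` are in the unlikely order -/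
theorem prod_le (q : Fin Z.n) :
    Z.μ.real {d | d q < d Z.x} * (1 - Z.μ.real {d | d q < d Z.x}) ≤
      Z.μ.real {d | |Z.a q| ≤ |Z.Y d q|} := by
  set π := Z.μ.real {d | d q < d Z.x} with hπ
  have h0 : 0 ≤ π := measureReal_nonneg
  have h1 : π ≤ 1 := measureReal_le_one
  have hms : MeasurableSet {d : Fin Z.n → ℝ | d q < d Z.x} :=
    measurableSet_lt (measurable_pi_apply q) (measurable_pi_apply Z.x)
  rcases lt_trichotomy (Z.a q) 0 with ha | ha | ha
  · -- `1 - π` is small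
    have h2 : 1 - π ≤ Z.μ.real {d | |Z.a q| ≤ |Z.Y d q|} := by
      rw [hπ, ← probReal_compl_eq_one_sub hms]
      refine ENNReal.toReal_mono (measure_ne_top _ _) (measure_mono_ae ?_)
      filter_upwards [Z.ref] with d hd hd2
      have h3 : 0 ≤ d q := by
        have h4 : ¬ d q < d Z.x := hd2
        rw [hd] at h4
        exact not_lt.1 h4
      show |Z.a q| ≤ |Z.Y d q|
      unfold KSys.Y
      rw [abs_of_neg ha, abs_of_nonneg (by linarith)]
      linarith
    nlinarith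
  · have h2 : {d | |Z.a q| ≤ |Z.Y d q|} = univ := by
      ext d
      simp [ha]
    rw [h2, probReal_univ]
    nlinarith
  · have h2 : π ≤ Z.μ.real {d | |Z.a q| ≤ |Z.Y d q|} := by
      rw [hπ]
      refine ENNReal.toReal_mono (measure_ne_top _ _) (measure_mono_ae ?_)
      filter_upwards [Z.ref] with d hd hd2
      have h3 : d q < 0 := by
        have h4 : d q < d Z.x := hd2
        rwa [hd] at h4
      show |Z.a q| ≤ |Z.Y d q|
      unfold KSys.Y
      rw [abs_of_pos ha, abs_of_neg (by linarith)]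
      linarith
    nlinarith

theorem prod_le_quarter (q : Fin Z.n) :
    Z.μ.real {d | d q < d Z.x} * (1 - Z.μ.real {d | d q < d Z.x}) ≤ 1 / 4 := by
  nlinarith [sq_nonneg (Z.μ.real {d | d q < d Z.x} - 1 / 2)]

theorem markov (q : Fin Z.n) :
    |Z.a q| * Z.μ.real {d | |Z.a q| ≤ |Z.Y d q|} ≤ Z.dist q Z.x := by
  rw [dist_x]
  exact mul_meas_ge_le_integral_of_nonneg (ae_of_all _ fun _ => abs_nonneg _) (int_Y Z q).abs _

/-- The inequality for one system. -/
theorem one_system {K K' C1 θ : ℝ} (hK : 0 < K) (hC1 : 1 ≤ C1) (hθ : 0 < θ)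
    (hTLP : ∀ p : Fin Z.n, Z.μ.real {d | |Z.a p| / 2 ≤ |Z.Y d p|} ≤ K / (1 + |Z.a p|) ^ 3)
    (hCEL : ∑ p ∈ Finset.univ.filter (fun p => C1 ≤ |Z.a p|), 1 / (1 + |Z.a p|) ^ 2 ≤
      K' * Z.S / (1 + C1))
    (hCNT : ((Finset.univ.filter fun p => -C1 ≤ Z.a p ∧ Z.a p ≤ C1).card : ℝ) ≤
      15 * (C1 - -C1 + 2) * Z.S)
    (h6 : ((Finset.univ.filter fun p => |Z.a p| ≤ 1 / 6).card : ℝ) ≤ 51 / 100 * Z.S)
    (hc1 : 2 * (K * K') ≤ 1 / 8 * (1 + C1)) (hc2 : 2 * (6 * θ * (15 * (C1 - -C1 + 2))) ≤ 1 / 8) :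
    Z.S / 4 ≤ ((Z.W C1).filter fun q => θ ≤ Z.dist q Z.x).card := by
  have hS : 1 ≤ Z.S := Z.one_le
  have hpt : ∀ q, Z.μ.real {d | d q < d Z.x} * (1 - Z.μ.real {d | d q < d Z.x}) ≤
      (if C1 ≤ |Z.a q| then K / (1 + |Z.a q|) ^ 3 else 0) +
      (if |Z.a q| ≤ 1 / 6 then 1 / 4 else 0) +
      (if -C1 ≤ Z.a q ∧ Z.a q ≤ C1 then 6 * θ else 0) +
      (if q ∈ (Z.W C1).filter (fun q => θ ≤ Z.dist q Z.x) then 1 / 4 else 0) := by
    intro q
    have n1 : 0 ≤ (if C1 ≤ |Z.a q| then K / (1 + |Z.a q|) ^ 3 else 0) := by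
      split_ifs
      · positivity
      · exact le_rfl
    have n2 : (0 : ℝ) ≤ (if |Z.a q| ≤ 1 / 6 then 1 / 4 else 0) := by
      split_ifs <;> norm_num
    have n3 : 0 ≤ (if -C1 ≤ Z.a q ∧ Z.a q ≤ C1 then 6 * θ else 0) := by
      split_ifs
      · positivity
      · exact le_rfl
    have n4 : (0 : ℝ) ≤ (if q ∈ (Z.W C1).filter (fun q => θ ≤ Z.dist q Z.x) then 1 / 4 else 0) := by
      split_ifs <;> norm_num
    have hq4 := prod_le_quarter Z q
    by_cases c1 : |Z.a q| ≤ 1 / 6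
    · rw [if_pos c1] at n2 ⊢
      linarith
    by_cases c2 : C1 ≤ |Z.a q|
    · rw [if_pos c2] at n1 ⊢
      have h1 := prod_le Z q
      have h2 : Z.μ.real {d | |Z.a q| ≤ |Z.Y d q|} ≤ Z.μ.real {d | |Z.a q| / 2 ≤ |Z.Y d q|} := by
        refine measureReal_mono ?_
        intro d hd
        have hd' : |Z.a q| ≤ |Z.Y d q| := hd
        show |Z.a q| / 2 ≤ |Z.Y d q|
        have := abs_nonneg (Z.a q)
        linarith
      have h3 := hTLP q
      linarith
    rw [not_le] at c1 c2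
    by_cases c3 : θ ≤ Z.dist q Z.x
    · have h1 : q ∈ (Z.W C1).filter (fun q => θ ≤ Z.dist q Z.x) := by
        rw [Finset.mem_filter]
        refine ⟨?_, c3⟩
        unfold KSys.W
        rw [Finset.mem_filter]
        exact ⟨Finset.mem_univ _, c2.le⟩
      rw [if_pos h1]
      linarith
    · rw [not_le] at c3
      have h1 : -C1 ≤ Z.a q ∧ Z.a q ≤ C1 := abs_le.1 c2.le
      rw [if_pos h1]
      have h2 := prod_le Z q
      have h3 := markov Z q
      have h4 : Z.μ.real {d | |Z.a q| ≤ |Z.Y d q|} ≤ 6 * θ := by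
        have h5 : 0 ≤ Z.μ.real {d | |Z.a q| ≤ |Z.Y d q|} := measureReal_nonneg
        nlinarith
      linarith
  have hsum := Finset.sum_le_sum fun q (_ : q ∈ Finset.univ) => hpt q
  rw [Finset.sum_add_distrib, Finset.sum_add_distrib, Finset.sum_add_distrib] at hsum
  have s1 : ∑ q, (if C1 ≤ |Z.a q| then K / (1 + |Z.a q|) ^ 3 else 0) ≤
      K * K' * Z.S / (1 + C1) := by
    rw [← Finset.sum_filter]
    have h1 : ∑ q ∈ Finset.univ.filter (fun p => C1 ≤ |Z.a p|), K / (1 + |Z.a q|) ^ 3 ≤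
        ∑ q ∈ Finset.univ.filter (fun p => C1 ≤ |Z.a p|), K * (1 / (1 + |Z.a q|) ^ 2) := by
      refine Finset.sum_le_sum fun q _ => ?_
      have h2 : (0 : ℝ) ≤ |Z.a q| := abs_nonneg _
      rw [mul_one_div]
      refine div_le_div_of_nonneg_left hK.le (by positivity) ?_
      calc (1 + |Z.a q|) ^ 2 = (1 + |Z.a q|) ^ 2 * 1 := (mul_one _).symm
        _ ≤ (1 + |Z.a q|) ^ 2 * (1 + |Z.a q|) :=
          mul_le_mul_of_nonneg_left (by linarith) (by positivity)
        _ = (1 + |Z.a q|) ^ 3 := by ring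
    rw [← Finset.mul_sum] at h1
    refine h1.trans ((mul_le_mul_of_nonneg_left hCEL hK.le).trans (le_of_eq ?_))
    ring
  have s2 : ∑ q, (if |Z.a q| ≤ 1 / 6 then (1 : ℝ) / 4 else 0) ≤ 1 / 4 * (51 / 100 * Z.S) := by
    rw [← Finset.sum_filter, Finset.sum_const, nsmul_eq_mul, mul_comm]
    exact mul_le_mul_of_nonneg_left h6 (by norm_num)
  have s3 : ∑ q, (if -C1 ≤ Z.a q ∧ Z.a q ≤ C1 then 6 * θ else 0) ≤
      6 * θ * (15 * (C1 - -C1 + 2) * Z.S) := by
    rw [← Finset.sum_filter, Finset.sum_const, nsmul_eq_mul, mul_comm]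
    exact mul_le_mul_of_nonneg_left hCNT (by positivity)
  have s4 : ∑ q, (if q ∈ (Z.W C1).filter (fun q => θ ≤ Z.dist q Z.x) then (1 : ℝ) / 4 else 0) =
      1 / 4 * ((Z.W C1).filter fun q => θ ≤ Z.dist q Z.x).card := by
    rw [Finset.sum_ite_mem, Finset.univ_inter, Finset.sum_const, nsmul_eq_mul, mul_comm]
  have hen := Z.energy
  have h7 : 2 * (K * K' * Z.S / (1 + C1)) ≤ 1 / 8 * Z.S := by
    have h8 : 0 < 1 + C1 := by linarith
    rw [← mul_div_assoc, div_le_iff₀ h8]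
    nlinarith
  have h9 : 2 * (6 * θ * (15 * (C1 - -C1 + 2) * Z.S)) ≤ 1 / 8 * Z.S := by
    nlinarith
  linarith

/-- NRM. -/
theorem nrm (hFIL : S_FIL) (hTLP : S_TLP) (hCEL : S_CEL) (hCNT : S_CNT) : S_NRM := by
  obtain ⟨K, hK, hTLP⟩ := hTLP
  obtain ⟨K', hK', hCEL⟩ := hCEL
  set C1 : ℝ := 16 * (K * K') + 1 with hC1
  have hKK : 0 < K * K' := mul_pos hK hK'
  have hC11 : 1 ≤ C1 := by linarith
  set θ : ℝ := 1 / (8 * (2 * (6 * (15 * (C1 - -C1 + 2))))) with hθ
  have hD : 0 < 2 * (6 * (15 * (C1 - -C1 + 2))) := by linarith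
  have hθ0 : 0 < θ := by positivity
  refine ⟨C1, θ, hC11, hθ0, ?_⟩
  intro c hc Z hS hfill
  -- the bump function
  let f : ContDiffBump (0 : ℝ) := ⟨1 / 6, 1 / 4, by norm_num, by norm_num⟩
  have hf1 : ContDiff ℝ ∞ (f : ℝ → ℝ) := f.contDiff
  have hf2 : HasCompactSupport (f : ℝ → ℝ) := f.hasCompactSupport
  have hfi : ∫ y, f y ≤ 1 / 2 := by
    have h1 := f.integral_le_measure_closedBall (μ := (volume : Measure ℝ))
    have h2 : (volume : Measure ℝ).real (Metric.closedBall (0 : ℝ) f.rOut) = 1 / 2 := by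
      rw [Real.closedBall_eq_Icc, Real.volume_real_Icc]
      show max ((0 : ℝ) + 1 / 4 - (0 - 1 / 4)) 0 = 1 / 2
      norm_num
    rwa [h2] at h1
  have hfil := hFIL c hc Z hS hfill (fun _ _ => 1) (fun _ => measurable_const)
    (fun _ _ => ⟨zero_le_one, by norm_num⟩) (fun N => by simp) f hf1 hf2
  have hev : ∀ᶠ N in atTop, (∑ p ∈ (Z N).W (Z N).S, f (∫ e, 1 * e p ∂(Z N).μ)) / (Z N).S <
      51 / 100 := hfil.eventually_lt_const (by linarith)
  filter_upwards [hev] with N hN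
  have hS1 := (Z N).one_le
  have h6 : ((Finset.univ.filter fun p => |(Z N).a p| ≤ 1 / 6).card : ℝ) ≤ 51 / 100 * (Z N).S := by
    rw [div_lt_iff₀ (by linarith)] at hN
    refine le_trans ?_ hN.le
    have e1 : ∀ p, ∫ e, 1 * e p ∂(Z N).μ = (Z N).a p := by
      intro p
      simp only [one_mul]
      rfl
    simp only [e1]
    have e2 : ((Finset.univ.filter fun p => |(Z N).a p| ≤ 1 / 6).card : ℝ) =
        ∑ p ∈ Finset.univ.filter (fun p => |(Z N).a p| ≤ 1 / 6), f ((Z N).a p) := by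
      rw [Finset.card_eq_sum_ones, Nat.cast_sum]
      refine Finset.sum_congr rfl fun p hp => ?_
      rw [Finset.mem_filter] at hp
      rw [f.one_of_mem_closedBall, Nat.cast_one]
      rw [mem_closedBall_zero_iff, Real.norm_eq_abs]
      exact hp.2
    rw [e2]
    refine Finset.sum_le_sum_of_subset_of_nonneg ?_ fun p _ _ => f.nonneg
    intro p hp
    rw [Finset.mem_filter] at hp
    unfold KSys.W
    rw [Finset.mem_filter]
    exact ⟨hp.1, hp.2.trans (by linarith)⟩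
  refine one_system (Z N) (K := K) (K' := K') hK hC11 hθ0 (fun p => hTLP c (Z N) p)
    (hCEL c (Z N) C1 (by linarith)) (hCNT c (Z N) (-C1) C1 (by linarith)) h6 (by linarith) ?_
  have h3 : 2 * (6 * θ * (15 * (C1 - -C1 + 2))) = θ * (2 * (6 * (15 * (C1 - -C1 + 2)))) := by ring
  rw [h3, hθ, one_div, mul_inv, mul_assoc, inv_mul_cancel₀ hD.ne']
  norm_num

end Pool.Agent.Helper40.KS
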